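import Pool.Agent.H200G.Stm2

/-! # Project GR (helper200), job GR-WIN3: the windows (GR19, GR20) -/

set_option autoImplicit false

namespace Pool.Agent.Q26.GR

open Finset Pool.Agent.TH176.Nag Pool.Agent.TH603.Sur Pool.Agent.TH2.NU Pool.Agent.TH641.UM
open Pool.Agent.Y205.FW Pool.Agent.Y205.MD Pool.Agent.H200W Pool.Agent.H200P Pool.Agent.H200C
open Pool.Agent.H200G

/-- GR19. The windows for three arbitrary multiplicities. -/
theorem win3 : S_Win3 := by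
  intro hC h d M1 M2 M3 hh h32 h21 hsum hgap f hf
  have hdf : (d : ℝ) ≤ f := by exact_mod_cast hf
  have hsum' : M1 + M2 + M3 ≤ f := hsum.trans hf
  have hgap' : 4160 * h ≤ (f : ℝ) - M1 := by linarith
  obtain ⟨hS, hE⟩ := p_win hh h32 h21 hsum' hgap'
  have hc1 := p_card (M1 := M1) (M2 := M2) (M3 := M3) (d := f) h32 h21 hsum'
  have hc1' : 2 * ((HX M1 M2 M3 f).card : ℝ) + ((M1 : ℝ) * (M1 + 1) + M2 * (M2 + 1) + M3 * (M3 + 1)) =
      ((f : ℝ) + 1) * (f + 2) := by exact_mod_cast hc1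
  have hc0 := Pool.Agent.Q285.PK.card_zero_real f
  have hcond : 2 * (TH2.NU.condM ({M1, M2, M3} : Multiset ℕ) : ℝ) =
      (M1 : ℝ) * (M1 + 1) + M2 * (M2 + 1) + M3 * (M3 + 1) := by
    rw [Pool.Agent.Q285.PK.two_condM]
    simp only [Multiset.insert_eq_cons, Multiset.map_cons, Multiset.map_singleton,
      Multiset.sum_cons, Multiset.sum_singleton]
    ring
  have hXX : 2 * ((HX 0 0 0 f).card : ℝ) - 2 * (TH2.NU.condM ({M1, M2, M3} : Multiset ℕ) : ℝ) =
      2 * ((HX M1 M2 M3 f).card : ℝ) := by linarith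
  obtain ⟨hC0S, hC0E⟩ := hC (M1 := M1) (M2 := M2) (M3 := M3) (f := f) 0 h32 h21 hsum'
  rw [hXX]
  have hM3 : (0 : ℝ) ≤ M3 := Nat.cast_nonneg _
  have hM2 : (M3 : ℝ) ≤ M2 := by exact_mod_cast h32
  have hM1 : (M2 : ℝ) ≤ M1 := by exact_mod_cast h21
  have hs : (M1 : ℝ) + M2 + M3 ≤ f := by exact_mod_cast hsum'
  refine ⟨14 * ((f : ℝ) - M1 + 2), by nlinarith, ?_, ⟨?_, ?_⟩, ?_⟩
  · have h64 : 0 < 64 * h := by linarith
    rw [le_div_iff₀ h64]
    have h1 : (M2 : ℝ) ^ 2 + M3 ^ 2 ≤ M1 * (f - M1) := by nlinarith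
    have h2 : ((f : ℝ) - M1) * f ≤ 2 * ((HX M1 M2 M3 f).card : ℝ) := by nlinarith
    have hf0 : (4160 : ℝ) ≤ f := by nlinarith
    have h3 : 4160 * h * f ≤ ((f : ℝ) - M1) * f := mul_le_mul_of_nonneg_right hgap' (by linarith)
    have h4 : 14 * ((f : ℝ) - M1 + 2) + 2 * (f + 2) ≤ 65 * f := by nlinarith
    have h5 : (14 * ((f : ℝ) - M1 + 2) + 2 * (f + 2)) * (64 * h) ≤ 65 * f * (64 * h) :=
      mul_le_mul_of_nonneg_right h4 h64.le
    linarith
  · have h1 := hC0S (surM_zero _)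
    rwa [add_zero] at h1
  · intro L hL hα
    exact (hC (L.map Prod.fst).sum h32 h21 hsum').1 (hS L hL hα)
  · intro L hL hα
    refine (hC (L.map Prod.fst).sum h32 h21 hsum').2 (hE L hL ?_)
    have : 0 ≤ 14 * ((f : ℝ) - M1 + 2) := by nlinarith
    linarith

/-- GR20. The windows for packed multiplicities. -/
theorem winP : S_WinP := by
  intro h G η d m1 K hh hη hη1 hG hd hK hpack hcond f hf
  have hG0 : 0 < G := by
    by_contra hneg
    push Not at hneg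
    nlinarith [mul_nonneg hη.le (neg_nonneg.2 hneg)]
  have hG32 : 32 * h ≤ G := by nlinarith [mul_le_mul_of_nonneg_right hη1 hG0.le]
  obtain ⟨hS, hE⟩ := p_winK K hh hG32 hd hK hpack f hf
  have hd1 : (1 : ℝ) ≤ d := by exact_mod_cast hd
  have hdf : (d : ℝ) ≤ f := by exact_mod_cast hf
  have hsq := Pool.Agent.Q285.PK.sum_sq_nonneg K (16 * G)
  have hm1 : (0 : ℝ) ≤ m1 := Nat.cast_nonneg _
  have hdG : 116 * G ≤ d := by
    have h1 : (116 * G) * d ≤ (d : ℝ) * d := by nlinarith [mul_nonneg hm1 (by linarith : (0 : ℝ) ≤ d)]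
    exact le_of_mul_le_mul_right h1 (by linarith)
  have hf0 : 0 < (f : ℝ) := by linarith
  have hc0 := Pool.Agent.Q285.PK.card_zero_real f
  have h2c := Pool.Agent.Q285.PK.two_condM K
  refine ⟨7 * (f : ℝ) ^ 2 / (16 * G), by positivity, ?_, hS, hE⟩
  have hX : η * (f : ℝ) ^ 2 ≤ 2 * ((HX 0 0 0 f).card : ℝ) - 2 * (TH2.NU.condM K : ℝ) := by
    rw [hc0, h2c]
    have h1 : (1 - η) * (d : ℝ) ^ 2 ≤ (1 - η) * (f : ℝ) ^ 2 :=
      mul_le_mul_of_nonneg_left (pow_le_pow_left₀ (by linarith) hdf 2) (by linarith)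
    nlinarith
  have h64 : 0 < 64 * h := by linarith
  refine le_trans ?_ (div_le_div_of_nonneg_right hX h64.le)
  -- the two errors
  have h1 : 7 * (f : ℝ) ^ 2 / (16 * G) ≤ 7 * (η * (f : ℝ) ^ 2) / (512 * h) := by
    rw [div_le_div_iff₀ (by positivity) (by positivity)]
    have h2 : 512 * h ≤ 16 * (η * G) := by linarith
    have h3 : 0 ≤ 7 * (f : ℝ) ^ 2 := by positivity
    nlinarith [mul_le_mul_of_nonneg_left h2 h3]
  have h2 : 2 * ((f : ℝ) + 2) ≤ η * (f : ℝ) ^ 2 / (512 * h) := by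
    rw [le_div_iff₀ (by positivity)]
    have h3 : 116 * G ≤ f := by linarith
    have h4 : 3712 * h ≤ η * f := by
      have : 116 * (32 * h) ≤ 116 * (η * G) := by linarith
      nlinarith [mul_le_mul_of_nonneg_left h3 hη.le]
    have h5 : 3712 * h * f ≤ η * f * f := mul_le_mul_of_nonneg_right h4 hf0.le
    have h6 : (4 : ℝ) ≤ f := by nlinarith
    have h7 : 2 * ((f : ℝ) + 2) * (512 * h) ≤ 3 * f * (512 * h) := by
      apply mul_le_mul_of_nonneg_right _ (by positivity)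
      linarith
    nlinarith
  calc 7 * (f : ℝ) ^ 2 / (16 * G) + 2 * ((f : ℝ) + 2) ≤
        7 * (η * (f : ℝ) ^ 2) / (512 * h) + η * (f : ℝ) ^ 2 / (512 * h) := add_le_add h1 h2
    _ = η * (f : ℝ) ^ 2 / (64 * h) := by
        field_simp
        ring

end Pool.Agent.Q26.GR
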