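import Pool.Agent.Q269.GR.StB

/-!
# Project GR (helper269): jobs FLD, RTP
-/

set_option autoImplicit false

open scoped Classical
open Finset Polynomial

namespace Pool.Agent.Q26.GR

open Pool.Agent.Q269.GR

theorem t_FLD : S_FLD := by
  intro k _ _ d hd
  obtain ⟨p, hp⟩ := CharP.exists k
  have hpp : Fact (Nat.Prime p) := ⟨CharP.char_is_prime k p⟩
  have hn : NeZero d := ⟨hd.ne'⟩
  let E := FiniteField.Extension k p d
  let _ : Fintype E := Fintype.ofFinite E
  have hcard : Fintype.card E = Fintype.card k ^ d := by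
    rw [← Nat.card_eq_fintype_card, ← Nat.card_eq_fintype_card]
    exact FiniteField.natCard_extension k p d
  let j : E →ₐ[k] Om k := IsAlgClosed.lift
  refine ⟨E, inferInstance, inferInstance, inferInstance, j, hcard,
    FiniteField.finrank_extension k p d, ?_⟩
  -- the roots of `X ^ (q ^ d) - X`
  have hq1 : 1 < Fintype.card k ^ d := Nat.one_lt_pow hd.ne' Fintype.one_lt_card
  have hne : (X ^ (Fintype.card k ^ d) - X : (Om k)[X]) ≠ 0 :=
    FiniteField.X_pow_card_sub_X_ne_zero (Om k) hq1
  have hmem : ∀ x : Om k, x ∈ (X ^ (Fintype.card k ^ d) - X : (Om k)[X]).roots.toFinset ↔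
      inK k d x := by
    intro x
    rw [Multiset.mem_toFinset, mem_roots hne, IsRoot.def, eval_sub, eval_pow, eval_X, sub_eq_zero]
    rfl
  have hjm : ∀ e : E, inK k d (j e) := by
    intro e
    unfold inK
    rw [← hcard, ← map_pow, FiniteField.pow_card]
  have hsub : (Finset.univ.image fun e : E => (j e : Om k)) ⊆
      (X ^ (Fintype.card k ^ d) - X : (Om k)[X]).roots.toFinset := by
    intro x hx
    obtain ⟨e, -, rfl⟩ := Finset.mem_image.1 hx
    exact (hmem _).2 (hjm e)
  have hcard2 : (X ^ (Fintype.card k ^ d) - X : (Om k)[X]).roots.toFinset.card ≤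
      (Finset.univ.image fun e : E => (j e : Om k)).card := by
    rw [Finset.card_image_of_injective _ (f := fun e : E => (j e : Om k))
      (fun a b hab => j.injective hab), Finset.card_univ, hcard]
    refine (Multiset.toFinset_card_le _).trans ((card_roots' _).trans (le_of_eq ?_))
    exact FiniteField.X_pow_card_sub_X_natDegree_eq (Om k) hq1
  have heq := Finset.eq_of_subset_of_card_le hsub hcard2
  intro x
  rw [← hmem, ← heq, Finset.mem_image]
  constructor
  · rintro ⟨e, -, he⟩
    exact ⟨e, he⟩
  · rintro ⟨e, he⟩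
    exact ⟨e, Finset.mem_univ e, he⟩

section frob

variable {k : Type} [Field k] [Fintype k]

/-- Frobenius is injective -/
theorem pow_inj (i : ℕ) {x y : Om k} (h : x ^ (Fintype.card k ^ i) = y ^ (Fintype.card k ^ i)) :
    x = y := by
  obtain ⟨p, hp⟩ := CharP.exists k
  have hpp : Fact (Nat.Prime p) := ⟨CharP.char_is_prime k p⟩
  have hpO : CharP (Om k) p := charP_of_injective_algebraMap (algebraMap k (Om k)).injective p
  obtain ⟨n, -, hn⟩ := FiniteField.card k p
  have h1 : (x - y) ^ (p ^ ((n : ℕ) * i)) = 0 := by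
    rw [sub_pow_char_pow, pow_mul, ← hn, h, sub_self]
  exact sub_eq_zero.1 (pow_eq_zero_iff (pow_pos hpp.out.pos _).ne' |>.1 h1)

/-- Frobenius and polynomials over `k` -/
theorem aeval_frob (P : k[X]) (x : Om k) (i : ℕ) :
    aeval (x ^ (Fintype.card k ^ i)) P = (aeval x P) ^ (Fintype.card k ^ i) := by
  induction i generalizing x with
  | zero => simp
  | succ i ih =>
    rw [pow_succ, pow_mul, pow_mul, ← ih, ← expand_aeval, FiniteField.expand_card, map_pow]

end frob

theorem t_RTP : S_RTP := by
  intro k _ _ P hP hirr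
  have hex : ∃ θ : Om k, aeval θ P = 0 :=
    IsAlgClosed.exists_aeval_eq_zero (Om k) P (degree_pos_of_irreducible hirr).ne'
  have hroot : aeval (rt P) P = 0 := by
    unfold rt
    rw [dif_pos hex]
    exact hex.choose_spec
  have hmin : ∀ z : Om k, aeval z P = 0 → P = minpoly k z := fun z hz =>
    minpoly.eq_of_irreducible_of_monic hirr hz hP
  have hdvd : ∀ n : ℕ, rt P ^ (Fintype.card k ^ n) = rt P ↔ P.natDegree ∣ n := by
    intro n
    rw [hirr.natDegree_dvd_iff_dvd_X_pow_card_pow_sub_X, Nat.card_eq_fintype_card]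
    conv_rhs => rw [hmin _ hroot]
    rw [minpoly.dvd_iff, map_sub, map_pow, aeval_X, sub_eq_zero]
  have hmod : ∀ i j : ℕ, rt P ^ (Fintype.card k ^ i) = rt P ^ (Fintype.card k ^ j) ↔
      i ≡ j [MOD P.natDegree] := by
    have hle : ∀ i j : ℕ, i ≤ j → (rt P ^ (Fintype.card k ^ i) = rt P ^ (Fintype.card k ^ j) ↔
        i ≡ j [MOD P.natDegree]) := by
      intro i j hij
      rw [Nat.modEq_iff_dvd' hij, ← hdvd]
      obtain ⟨t, rfl⟩ := Nat.exists_eq_add_of_le hij
      rw [Nat.add_sub_cancel_left]
      have e1 : rt P ^ (Fintype.card k ^ (i + t)) =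
          (rt P ^ (Fintype.card k ^ t)) ^ (Fintype.card k ^ i) := by
        rw [← pow_mul, ← pow_add, add_comm t i]
      rw [e1]
      constructor
      · intro h
        exact (pow_inj i h).symm
      · intro h
        rw [h]
    intro i j
    rcases le_total i j with h | h
    · exact hle i j h
    · rw [eq_comm, hle j i h]
      exact ⟨Nat.ModEq.symm, Nat.ModEq.symm⟩
  refine ⟨hroot, (hdvd _).2 dvd_rfl, ?_, hmod, ?_⟩
  · -- the factorisation
    have hmon : (P.map (algebraMap k (Om k))).Monic := hP.map _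
    have hdeg : (P.map (algebraMap k (Om k))).natDegree = P.natDegree := natDegree_map _
    have hQ : (∏ l ∈ range P.natDegree, (X - C (rt P ^ (Fintype.card k ^ l)))).Monic :=
      monic_prod_of_monic _ _ fun l _ => monic_X_sub_C _
    have hQd : (∏ l ∈ range P.natDegree, (X - C (rt P ^ (Fintype.card k ^ l)))).natDegree =
        P.natDegree := by
      rw [natDegree_prod_of_monic _ _ fun l _ => monic_X_sub_C _]
      simp only [natDegree_X_sub_C, sum_const, card_range, smul_eq_mul, mul_one]
    refine eq_of_monic_of_dvd_of_natDegree_le hQ hmon ?_ (by rw [hdeg, hQd])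
    refine Finset.prod_dvd_of_coprime ?_ ?_
    · intro i hi j hj hij
      have hi' := Finset.mem_range.1 (Finset.mem_coe.1 hi)
      have hj' := Finset.mem_range.1 (Finset.mem_coe.1 hj)
      apply isCoprime_X_sub_C_of_isUnit_sub
      rw [isUnit_iff_ne_zero, sub_ne_zero]
      intro h
      exact hij (Nat.ModEq.eq_of_lt_of_lt ((hmod i j).1 h) hi' hj')
    · intro l _
      rw [dvd_iff_isRoot, IsRoot.def, eval_map_algebraMap, aeval_frob, hroot,
        zero_pow (pow_pos Fintype.card_pos _).ne']
  · intro P' hP' hirr' hne i j h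
    have hex' : ∃ θ : Om k, aeval θ P' = 0 :=
      IsAlgClosed.exists_aeval_eq_zero (Om k) P' (degree_pos_of_irreducible hirr').ne'
    have hroot' : aeval (rt P') P' = 0 := by
      unfold rt
      rw [dif_pos hex']
      exact hex'.choose_spec
    have h1 : aeval (rt P ^ (Fintype.card k ^ i)) P = 0 := by
      rw [aeval_frob, hroot, zero_pow (pow_pos Fintype.card_pos _).ne']
    have h2 : aeval (rt P ^ (Fintype.card k ^ i)) P' = 0 := by
      rw [h, aeval_frob, hroot', zero_pow (pow_pos Fintype.card_pos _).ne']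
    apply hne
    rw [hmin _ h1]
    exact minpoly.eq_of_irreducible_of_monic hirr' h2 hP'

end Pool.Agent.Q26.GR
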