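import Pool.Agent.Q26.GR.FLD

/-!
# Project GR (helper269): job SGD
-/

set_option autoImplicit false

namespace Pool.Agent.Q26.GR

theorem f2_add_self (x : ZMod 2) : x + x = 0 := by
  revert x
  decide

open scoped Classical
open Finset Polynomial

open Pool.Agent.Q269.GR

section

variable {k : Type} [Field k] [Fintype k]

theorem odd_q (hk : ringChar k ≠ 2) : Odd (Fintype.card k) :=
  Nat.odd_iff.2 (FiniteField.odd_card_of_char_ne_two hk)

omit [Fintype k] in
theorem one_ne_neg (hk : ringChar k ≠ 2) : (1 : Om k) ≠ -1 := by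
  intro h
  have h1 : (algebraMap k (Om k)) 1 = algebraMap k (Om k) (-1) := by
    rw [map_neg, map_one]
    exact h
  have h2 := (algebraMap k (Om k)).injective h1
  exact Ring.neg_one_ne_one_of_char_ne_two hk h2.symm

theorem inK_of_dvd {d D : ℕ} (h : d ∣ D) {x : Om k} (hx : inK k d x) : inK k D x := by
  obtain ⟨t, rfl⟩ := h
  unfold inK at hx ⊢
  induction t with
  | zero => simp
  | succ t ih =>
    have : Fintype.card k ^ (d * (t + 1)) = Fintype.card k ^ (d * t) * Fintype.card k ^ d := by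
      rw [← pow_add]
      ring_nf
    rw [this, pow_mul, ih, hx]

theorem inK_mul {d : ℕ} {x y : Om k} (hx : inK k d x) (hy : inK k d y) : inK k d (x * y) := by
  unfold inK at *
  rw [mul_pow, hx, hy]

theorem inK_pow {d : ℕ} {x : Om k} (hx : inK k d x) (n : ℕ) : inK k d (x ^ n) := by
  unfold inK at *
  rw [← pow_mul, mul_comm, pow_mul, hx]

theorem inK_alg (d : ℕ) (a : k) : inK k d (algebraMap k (Om k) a) := by
  unfold inK
  rw [← map_pow, FiniteField.pow_card_pow]

/-- Euler's criterion -/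
theorem euler (hk : ringChar k ≠ 2) {d : ℕ} (hd : 0 < d) {x : Om k} (hx : inK k d x)
    (hx0 : x ≠ 0) : (x ^ (Fintype.card k ^ d / 2) = 1 ∨ x ^ (Fintype.card k ^ d / 2) = -1) ∧
      (sgd k d x = 0 ↔ x ^ (Fintype.card k ^ d / 2) = 1) := by
  obtain ⟨E, _, _, _, j, hcard, -, hE⟩ := t_FLD k d hd
  obtain ⟨e, rfl⟩ := (hE x).1 hx
  have he0 : e ≠ 0 := by
    rintro rfl
    exact hx0 (map_zero j)
  have hkE : ringChar E ≠ 2 := by rwa [← Algebra.ringChar_eq k E]
  have h1 := FiniteField.isSquare_iff hkE he0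
  have h2 := FiniteField.pow_dichotomy hkE he0
  have hinj : Function.Injective j := j.injective
  rw [hcard] at h1 h2
  have h3 : ∀ z : E, j z = 1 ↔ z = 1 := fun z => by
    rw [← map_one j]
    exact hinj.eq_iff
  constructor
  · rcases h2 with h | h
    · left
      rw [← map_pow, h, map_one]
    · right
      rw [← map_pow, h, map_neg, map_one]
  · rw [← map_pow, h3, ← h1]
    unfold sgd
    constructor
    · intro h
      by_contra hcon
      rw [if_neg] at h
      · exact one_ne_zero h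
      · rintro ⟨y, hy, hxy⟩
        obtain ⟨e', rfl⟩ := (hE y).1 hy
        apply hcon
        refine ⟨e', hinj ?_⟩
        rw [hxy, map_mul, sq]
    · rintro ⟨e', he'⟩
      rw [if_pos ⟨j e', (hE _).2 ⟨e', rfl⟩, by rw [he', map_mul, sq]⟩]

theorem sgd_zero (d : ℕ) : sgd k d (0 : Om k) = 0 := by
  have h : inK k d (0 : Om k) := by
    unfold inK
    exact zero_pow (pow_pos Fintype.card_pos _).ne'
  exact if_pos ⟨0, h, by simp⟩

theorem sgd_cases (d : ℕ) (x : Om k) : sgd k d x = 0 ∨ sgd k d x = 1 := by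
  unfold sgd
  split_ifs
  · exact Or.inl rfl
  · exact Or.inr rfl

theorem sgd_eq_of {d D : ℕ} {x y : Om k} (h : sgd k d x = 0 ↔ sgd k D y = 0) :
    sgd k d x = sgd k D y := by
  rcases sgd_cases d x with h1 | h1
  · rw [h1, (h.1 h1)]
  · rcases sgd_cases D y with h2 | h2
    · rw [h.2 h2, h2]
    · rw [h1, h2]

theorem sgd_mul (hk : ringChar k ≠ 2) {d : ℕ} (hd : 0 < d) {x y : Om k} (hx : inK k d x)
    (hy : inK k d y) (hx0 : x ≠ 0) (hy0 : y ≠ 0) : sgd k d (x * y) = sgd k d x + sgd k d y := by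
  obtain ⟨a1, a2⟩ := euler hk hd hx hx0
  obtain ⟨b1, b2⟩ := euler hk hd hy hy0
  obtain ⟨-, c2⟩ := euler hk hd (inK_mul hx hy) (mul_ne_zero hx0 hy0)
  have hne := one_ne_neg hk
  rw [mul_pow] at c2
  rcases a1 with a | a <;> rcases b1 with b | b
  · rw [a2.2 a, b2.2 b, c2.2 (by rw [a, b, one_mul]), add_zero]
  · have h1 : sgd k d y ≠ 0 := fun h => hne ((b2.1 h).symm.trans b)
    have h2 : sgd k d (x * y) ≠ 0 := fun h => hne (by
      have := c2.1 h
      rw [a, b, one_mul] at this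
      exact this.symm)
    rw [a2.2 a, (sgd_cases d y).resolve_left h1, (sgd_cases d (x * y)).resolve_left h2, zero_add]
  · have h1 : sgd k d x ≠ 0 := fun h => hne ((a2.1 h).symm.trans a)
    have h2 : sgd k d (x * y) ≠ 0 := fun h => hne (by
      have := c2.1 h
      rw [a, b, mul_one] at this
      exact this.symm)
    rw [b2.2 b, (sgd_cases d x).resolve_left h1, (sgd_cases d (x * y)).resolve_left h2, add_zero]
  · have h1 : sgd k d x ≠ 0 := fun h => hne ((a2.1 h).symm.trans a)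
    have h2 : sgd k d y ≠ 0 := fun h => hne ((b2.1 h).symm.trans b)
    rw [(sgd_cases d x).resolve_left h1, (sgd_cases d y).resolve_left h2,
      c2.2 (by rw [a, b]; ring)]
    exact (f2_add_self 1).symm

omit [Fintype k] in
theorem pow_odd_iff (_ : ringChar k ≠ 2) {z : Om k} (hz : z = 1 ∨ z = -1) {n : ℕ} (hn : Odd n) :
    z ^ n = 1 ↔ z = 1 := by
  rcases hz with rfl | rfl
  · simp
  · rw [hn.neg_one_pow]

end

theorem t_SGD_aux {Q m : ℕ} (hQ : Odd Q) (hQ1 : 1 < Q) :
    Q ^ m / 2 = Q / 2 * ∑ i ∈ range m, Q ^ i := by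
  obtain ⟨t, ht⟩ := hQ
  have h1 : (∑ i ∈ range m, Q ^ i) * (Q - 1) + 1 = Q ^ m := by
    clear ht t
    induction m with
    | zero => simp
    | succ m ih =>
      obtain ⟨s, rfl⟩ : ∃ s, Q = s + 1 := ⟨Q - 1, by omega⟩
      simp only [Nat.add_sub_cancel] at ih ⊢
      rw [sum_range_succ, add_mul, pow_succ, mul_add, mul_one]
      omega
  have h2 : Q - 1 = 2 * t := by omega
  have h3 : Q / 2 = t := by omega
  rw [h2] at h1
  rw [h3, ← h1]
  have h4 : (∑ i ∈ range m, Q ^ i) * (2 * t) + 1 = 2 * (t * ∑ i ∈ range m, Q ^ i) + 1 := by ring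
  rw [h4]
  omega

theorem t_SGD (_ : S_FLD) : S_SGD := by
  intro k _ _ hk d hd
  have hq := odd_q hk
  have hq1 : 1 < Fintype.card k := Fintype.one_lt_card
  refine ⟨fun x y hx hy hx0 hy0 => sgd_mul hk hd hx hy hx0 hy0, ?_, ?_, ?_, ?_, sgd_zero d⟩
  · intro x i hx
    by_cases hx0 : x = 0
    · rw [hx0, zero_pow (pow_pos Fintype.card_pos _).ne']
    obtain ⟨a1, a2⟩ := euler hk hd hx hx0
    obtain ⟨-, b2⟩ := euler hk hd (inK_pow hx (Fintype.card k ^ i)) (pow_ne_zero _ hx0)
    apply sgd_eq_of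
    rw [a2, b2, ← pow_mul, mul_comm, pow_mul]
    exact pow_odd_iff hk a1 (hq.pow)
  · intro x D hx hdD hodd
    have hxD := inK_of_dvd hdD hx
    refine ⟨hxD, ?_⟩
    by_cases hx0 : x = 0
    · rw [hx0, sgd_zero, sgd_zero]
    have hD : 0 < D := by
      rcases Nat.eq_zero_or_pos D with h0 | h0
      · rw [h0, Nat.zero_div] at hodd
        exact absurd hodd (by decide)
      · exact h0
    obtain ⟨a1, a2⟩ := euler hk hd hx hx0
    obtain ⟨-, b2⟩ := euler hk hD hxD hx0
    apply sgd_eq_of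
    rw [a2, b2]
    obtain ⟨t, rfl⟩ := hdD
    rw [Nat.mul_div_cancel_left _ hd] at hodd
    rw [pow_mul (Fintype.card k) d t, t_SGD_aux hq.pow (Nat.one_lt_pow hd.ne' hq1), pow_mul]
    refine pow_odd_iff hk a1 ?_
    rw [Finset.odd_sum_iff_odd_card_odd]
    have : (range t).filter (fun i => Odd ((Fintype.card k ^ d) ^ i)) = range t := by
      rw [Finset.filter_eq_self]
      intro i _
      exact (hq.pow).pow
    rw [this, card_range]
    exact hodd
  · rintro ⟨i, hi⟩ x hx
    by_cases hx0 : x = 0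
    · rw [hx0, neg_zero]
    have h1 : (-1 : Om k) = algebraMap k (Om k) i ^ 2 := by
      rw [sq, ← map_mul, ← hi, map_neg, map_one]
    have h2 : sgd k d (-1 : Om k) = 0 := by
      unfold sgd
      rw [if_pos ⟨algebraMap k (Om k) i, inK_alg d i, h1⟩]
    have h3 : inK k d (-1 : Om k) := by
      have := inK_alg (k := k) d (-1)
      rwa [map_neg, map_one] at this
    rw [← neg_one_mul, sgd_mul hk hd h3 hx (by
      intro h4
      exact one_ne_zero (neg_eq_zero.1 h4)) hx0, h2, zero_add]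
  · intro x r hx hx0 hr hrd
    obtain ⟨t, rfl⟩ := hrd
    have ht0 : 0 < t := Nat.pos_of_mul_pos_left hd
    rw [Nat.mul_div_cancel_left _ hr]
    have hN : ∏ i ∈ range t, x ^ (Fintype.card k ^ (r * i)) =
        x ^ (∑ i ∈ range t, (Fintype.card k ^ r) ^ i) := by
      rw [← Finset.prod_pow_eq_pow_sum]
      exact prod_congr rfl fun i _ => by rw [pow_mul (Fintype.card k)]
    rw [hN]
    set Q := Fintype.card k ^ r with hQ
    have hQ1 : 1 < Q := Nat.one_lt_pow hr.ne' hq1
    set G := ∑ i ∈ range t, Q ^ i with hG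
    have hG1 : Q * G + 1 = G + Q ^ t := by
      rw [hG, mul_sum]
      have h1 : ∑ i ∈ range t, Q * Q ^ i + 1 = ∑ i ∈ range (t + 1), Q ^ i := by
        rw [sum_range_succ']
        simp only [pow_zero]
        congr 1
        exact sum_congr rfl fun i _ => by rw [pow_succ]; ring
      rw [h1, sum_range_succ]
    have hxQ : x ^ (Q ^ t) = x := by
      unfold inK at hx
      rwa [pow_mul] at hx
    have hin : inK k r (x ^ G) := by
      unfold inK
      rw [← hQ, ← pow_mul]
      have h1 : x ^ (Q * G + 1) = x ^ (G + Q ^ t) := by rw [hG1]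
      rw [pow_succ, pow_add, hxQ] at h1
      rw [mul_comm G Q]
      exact mul_right_cancel₀ hx0 h1
    refine ⟨hin, ?_⟩
    obtain ⟨a1, a2⟩ := euler hk hd hx hx0
    obtain ⟨-, b2⟩ := euler hk hr hin (pow_ne_zero _ hx0)
    apply sgd_eq_of
    rw [a2, b2, ← hQ, pow_mul (Fintype.card k) r t, ← hQ, t_SGD_aux hq.pow hQ1, ← pow_mul,
      mul_comm G]

end Pool.Agent.Q26.GR
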