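import Pool.Agent.Q269.GR.StA
import Pool.Agent.Q269.GR.StB
import Pool.Agent.H510R2.Div

/-!
# Project GR (helper269): jobs XIR, ORD, UNR
-/

set_option autoImplicit false

namespace Pool.Agent.Q26.GR

theorem f2_cases : ∀ y : ZMod 2, y = 0 ∨ y = 1 := by decide

open scoped Classical
open Finset Polynomial

open Pool.Agent.Q269.GR

theorem ord_pos {r : ℕ} (hr : Odd r) : 0 < orderOf (2 : ZMod r) := by
  have hr0 : r ≠ 0 := by
    rintro rfl
    exact absurd hr (by decide)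
  have : NeZero r := ⟨hr0⟩
  have hc : Nat.Coprime 2 r := (Nat.coprime_two_left).2 hr
  have h1 : ((ZMod.unitOfCoprime 2 hc : (ZMod r)ˣ) : ZMod r) = 2 := by
    rw [ZMod.coe_unitOfCoprime]
    rfl
  rw [← h1, orderOf_units]
  exact orderOf_pos _

theorem dvd_of_ord {r : ℕ} (n : ℕ) (h : orderOf (2 : ZMod r) ∣ n) : r ∣ 2 ^ n - 1 := by
  have h1 : (2 : ZMod r) ^ n = 1 := orderOf_dvd_iff_pow_eq_one.1 h
  have h2 : ((2 ^ n - 1 : ℕ) : ZMod r) = 0 := by
    rw [Nat.cast_sub Nat.one_le_two_pow]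
    push_cast
    rw [h1, sub_self]
  exact (ZMod.natCast_eq_zero_iff _ _).1 h2

theorem t_XIR : S_XIR := by
  intro r hr h1
  have hf : orderOf (2 : ZMod r) ≠ 0 := (ord_pos hr).ne'
  have hcard : Fintype.card (Fr r) = 2 ^ orderOf (2 : ZMod r) := by
    rw [← Nat.card_eq_fintype_card]
    exact GaloisField.card 2 _ hf
  have hdvd : r ∣ Nat.card (Fr r)ˣ := by
    rw [Nat.card_units, Nat.card_eq_fintype_card, hcard]
    exact dvd_of_ord _ dvd_rfl
  have hex : ∃ x : Fr r, orderOf x = r := by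
    obtain ⟨g, hg⟩ := IsCyclic.exists_ofOrder_eq_natCard (α := (Fr r)ˣ)
    obtain ⟨t, ht⟩ := hdvd
    have hpos : 0 < Nat.card (Fr r)ˣ := Nat.card_pos
    have ht0 : t ≠ 0 := by
      rintro rfl
      rw [mul_zero] at ht
      omega
    refine ⟨((g ^ t : (Fr r)ˣ) : Fr r), ?_⟩
    rw [orderOf_units, orderOf_pow_of_dvd ht0 (by rw [hg, ht]; exact dvd_mul_left _ _), hg, ht]
    exact Nat.mul_div_cancel _ (Nat.pos_of_ne_zero ht0)
  refine ⟨hr, h1, ?_, hcard⟩
  unfold xi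
  rw [dif_pos hex]
  exact hex.choose_spec

theorem t_ORD : S_ORD := by
  intro δ hδ
  obtain ⟨C, hC, hdiv⟩ := Pool.Agent.H510R2.divisor_bound (δ / 2) (by positivity)
  set ρ : ℝ := (2 : ℝ) ^ (-(δ / 2)) with hρ
  have hρ0 : 0 < ρ := Real.rpow_pos_of_pos (by norm_num) _
  have hρ1 : ρ < 1 := Real.rpow_lt_one_of_one_lt_of_neg (by norm_num) (by linarith)
  have hgeo : Summable fun n : ℕ => C * ρ ^ n :=
    (summable_geometric_of_lt_one hρ0.le hρ1).mul_left C
  refine summable_of_sum_le (c := ∑' n : ℕ, C * ρ ^ n) (fun r => ?_) (fun s => ?_)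
  · split_ifs
    · positivity
    · exact le_rfl
  rw [← Finset.sum_filter]
  set S := s.filter fun r => Odd r with hS
  have hmaps : ∀ r ∈ S, orderOf (2 : ZMod r) ∈ S.image fun r => orderOf (2 : ZMod r) :=
    fun r hr => Finset.mem_image_of_mem _ hr
  rw [← Finset.sum_fiberwise_of_maps_to hmaps]
  refine le_trans (Finset.sum_le_sum (g := fun n => C * ρ ^ n) fun f hf => ?_)
    (hgeo.sum_le_tsum _ fun n _ => by positivity)
  obtain ⟨r0, hr0, rfl⟩ := Finset.mem_image.1 hf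
  have hodd0 : Odd r0 := (Finset.mem_filter.1 hr0).2
  set f := orderOf (2 : ZMod r0) with hfdef
  have hf1 : 1 ≤ f := ord_pos hodd0
  have hsub : (S.filter fun r => orderOf (2 : ZMod r) = f) ⊆ (2 ^ f - 1).divisors := by
    intro r hr
    rw [Finset.mem_filter] at hr
    rw [Nat.mem_divisors]
    refine ⟨dvd_of_ord f (by rw [hr.2]), ?_⟩
    have : 2 ^ 1 ≤ 2 ^ f := Nat.pow_le_pow_right (by norm_num) hf1
    omega
  have hN : 1 ≤ 2 ^ f - 1 := by
    have : 2 ^ 1 ≤ 2 ^ f := Nat.pow_le_pow_right (by norm_num) hf1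
    omega
  have h1 : ((S.filter fun r => orderOf (2 : ZMod r) = f).card : ℝ) ≤
      C * ((2 : ℝ) ^ f) ^ (δ / 2) := by
    refine le_trans (by exact_mod_cast Finset.card_le_card hsub) ((hdiv _ hN).trans ?_)
    refine mul_le_mul_of_nonneg_left ?_ hC.le
    refine Real.rpow_le_rpow (by positivity) ?_ (by positivity)
    have : ((2 ^ f - 1 : ℕ) : ℝ) ≤ ((2 ^ f : ℕ) : ℝ) := by exact_mod_cast Nat.sub_le _ _
    exact this.trans (by push_cast; exact le_rfl)
  calc ∑ r ∈ S.filter (fun r => orderOf (2 : ZMod r) = f),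
        (2 : ℝ) ^ (-(δ * (orderOf (2 : ZMod r) : ℝ)))
      = ∑ _r ∈ S.filter (fun r => orderOf (2 : ZMod r) = f), (2 : ℝ) ^ (-(δ * (f : ℝ))) := by
        refine Finset.sum_congr rfl fun r hr => ?_
        rw [(Finset.mem_filter.1 hr).2]
    _ = ((S.filter fun r => orderOf (2 : ZMod r) = f).card : ℝ) * (2 : ℝ) ^ (-(δ * (f : ℝ))) := by
        rw [Finset.sum_const, nsmul_eq_mul]
    _ ≤ C * ((2 : ℝ) ^ f) ^ (δ / 2) * (2 : ℝ) ^ (-(δ * (f : ℝ))) :=
        mul_le_mul_of_nonneg_right h1 (by positivity)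
    _ = C * ρ ^ f := by
        have e1 : ((2 : ℝ) ^ f) ^ (δ / 2) = (2 : ℝ) ^ ((f : ℝ) * (δ / 2)) := by
          rw [← Real.rpow_natCast, ← Real.rpow_mul (by norm_num)]
        have e2 : ρ ^ f = (2 : ℝ) ^ (-(δ / 2) * (f : ℝ)) := by
          rw [hρ, ← Real.rpow_natCast, ← Real.rpow_mul (by norm_num)]
        rw [e1, e2, mul_assoc, ← Real.rpow_add (by norm_num)]
        congr 2
        ring

theorem half_ord {r : ℕ} (hr : Odd r) (h1 : 1 < r) (hU : Un r) :
    orderOf (2 : ZMod r) = 2 * (orderOf (2 : ZMod r) / 2) ∧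
      r ∣ 2 ^ (orderOf (2 : ZMod r) / 2) + 1 := by
  obtain ⟨m, hm⟩ := hU
  have hne : (-1 : ZMod r) ≠ 1 := by
    intro h
    have h2 : ((2 : ℕ) : ZMod r) = 0 := by
      push_cast
      linear_combination -h
    have h3 : r ∣ 2 := (ZMod.natCast_eq_zero_iff _ _).1 h2
    have h4 := Nat.le_of_dvd (by norm_num) h3
    have : r = 2 := by omega
    rw [this] at hr
    exact absurd hr (by decide)
  have hm1 : (2 : ZMod r) ^ m = -1 := by
    have h2 : ((2 ^ m + 1 : ℕ) : ZMod r) = 0 := (ZMod.natCast_eq_zero_iff _ _).2 hm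
    push_cast at h2
    linear_combination h2
  set f := orderOf (2 : ZMod r) with hf
  have hf2 : f ∣ 2 * m := by
    rw [hf, orderOf_dvd_iff_pow_eq_one, mul_comm, pow_mul, hm1]
    norm_num
  have hfm : ¬ f ∣ m := by
    intro h
    rw [hf, orderOf_dvd_iff_pow_eq_one, hm1] at h
    exact hne h
  have hev : f = 2 * (f / 2) := by
    rcases Nat.even_or_odd f with h | h
    · obtain ⟨t, ht⟩ := h
      omega
    · exfalso
      apply hfm
      have hc : Nat.Coprime f 2 := (Nat.coprime_two_right).2 h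
      exact hc.dvd_of_dvd_mul_left hf2
  refine ⟨hev, ?_⟩
  set u := f / 2 with hu
  have hum : u ∣ m := by
    rw [hev] at hf2
    exact Nat.dvd_of_mul_dvd_mul_left (by norm_num) hf2
  obtain ⟨t, ht⟩ := hum
  have hto : Odd t := by
    rcases Nat.even_or_odd t with h | h
    · exfalso
      obtain ⟨v, hv⟩ := h
      apply hfm
      refine ⟨v, ?_⟩
      rw [ht, hv, hev]
      ring
    · exact h
  obtain ⟨v, hv⟩ := hto
  have h3 : (2 : ZMod r) ^ u = -1 := by
    have h4 : (2 : ZMod r) ^ m = ((2 : ZMod r) ^ f) ^ v * (2 : ZMod r) ^ u := by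
      rw [← pow_mul, ← pow_add]
      congr 1
      rw [ht, hv, hev]
      ring
    have h5 : (2 : ZMod r) ^ f = 1 := pow_orderOf_eq_one _
    rw [h5, one_pow, one_mul, hm1] at h4
    exact h4.symm
  have h6 : ((2 ^ u + 1 : ℕ) : ZMod r) = 0 := by
    push_cast
    rw [h3]
    ring
  exact (ZMod.natCast_eq_zero_iff _ _).1 h6

theorem t_UNR : S_UNR := by
  intro r F _ _ _ ξ h
  set f := orderOf (2 : ZMod r) with hf
  have hf1 : 0 < f := ord_pos h.odd
  have hf2 : 2 ≤ f := by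
    by_contra hcon
    have h1 : f = 1 := by omega
    have h2 : (2 : ZMod r) ^ 1 = 1 := by
      have h0 : (2 : ZMod r) ^ f = 1 := pow_orderOf_eq_one _
      rwa [h1] at h0
    have h3 : ((1 : ℕ) : ZMod r) = 0 := by
      push_cast
      linear_combination h2
    have h4 : r ∣ 1 := (ZMod.natCast_eq_zero_iff _ _).1 h3
    have h5 := Nat.le_of_dvd (by norm_num) h4
    have := h.lt
    omega
  have h4 : 4 ≤ Fintype.card F := by
    rw [h.card]
    calc 4 = 2 ^ 2 := by norm_num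
      _ ≤ 2 ^ f := Nat.pow_le_pow_right (by norm_num) hf2
  have hpow4 : (4 : ℝ) ≤ 2 ^ f := by
    calc (4 : ℝ) = 2 ^ 2 := by norm_num
      _ ≤ 2 ^ f := pow_le_pow_right₀ (by norm_num) hf2
  have hEb1 : 1 ≤ Eb r := by
    unfold Eb
    split_ifs
    · have : (0 : ℝ) < 2 ^ (orderOf (2 : ZMod r) / 2) := by positivity
      linarith
    · norm_num
  have hEb2 : Eb r ≤ 2 ^ f := by
    unfold Eb
    split_ifs
    · rw [← hf]
      obtain ⟨Q, hQ⟩ : ∃ Q : ℝ, Q = 2 ^ (f / 2) := ⟨_, rfl⟩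
      rw [← hQ]
      have h5 : Q * Q ≤ 2 ^ f := by
        rw [hQ, ← pow_add]
        exact pow_le_pow_right₀ (by norm_num) (by omega)
      have h6 : 2 ≤ Q := by
        rw [hQ]
        calc (2 : ℝ) = 2 ^ 1 := by norm_num
          _ ≤ 2 ^ (f / 2) := pow_le_pow_right₀ (by norm_num) (by omega)
      nlinarith
    · linarith
  have hdl0 : 0 ≤ dl r := by
    unfold dl
    rw [← hf]
    exact div_nonneg (by linarith) (by linarith)
  have hdl1 : 0 ≤ 1 - dl r := by
    unfold dl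
    rw [← hf, sub_nonneg, div_le_one (by linarith)]
    linarith
  have hinv : IsRt r ξ⁻¹ := by
    refine ⟨h.odd, h.lt, ?_, h.card⟩
    rw [← h.ord]
    apply orderOf_eq_orderOf_iff.2
    intro n
    rw [inv_pow, inv_eq_one]
  have hξ0 : ξ ≠ 0 := by
    rintro rfl
    have h1 := h.ord
    have h2 : (0 : F) ^ r = 1 := by
      rw [← h1]
      exact pow_orderOf_eq_one _
    rw [zero_pow (by have := h.lt; omega)] at h2
    exact zero_ne_one h2
  refine ⟨hf2, hinv, h4, hdl1, hdl0, hEb1, fun hU => ?_⟩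
  obtain ⟨hev, hdv⟩ := half_ord h.odd h.lt hU
  rw [← hf] at hev hdv
  have hξ1 : ξ ^ 2 ^ (f / 2) = ξ⁻¹ := by
    have h5 : ξ ^ (2 ^ (f / 2) + 1) = 1 := by
      rw [← orderOf_dvd_iff_pow_eq_one, h.ord]
      exact hdv
    rw [pow_succ] at h5
    exact eq_inv_of_mul_eq_one_left h5
  have hξ2 : ξ⁻¹ ^ 2 ^ (f / 2) = ξ := by
    rw [inv_pow, hξ1, inv_inv]
  have hchar : CharP F 2 := by
    have : CharP F2 2 := ZMod.charP 2
    exact charP_of_injective_algebraMap (algebraMap F2 F).injective 2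
  have hfact : Fact (Nat.Prime 2) := ⟨Nat.prime_two⟩
  have hcf : ∀ (x : F2) (n : ℕ), (cf x : F) ^ 2 ^ n = cf x := by
    intro x n
    unfold cf
    rw [← map_pow]
    congr 1
    have h5 := f2_cases x
    rcases h5 with rfl | rfl
    · rw [zero_pow (by positivity)]
    · rw [one_pow]
  have hev' : ∀ (η : F) (g : ℕ) (s : Fin g → F2), ev η s ^ 2 ^ (f / 2) =
      ev (η ^ 2 ^ (f / 2)) s := by
    intro η g s
    unfold ev
    rw [sum_pow_char_pow]
    refine Finset.sum_congr rfl fun c _ => ?_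
    rw [mul_pow, hcf, ← pow_mul, ← pow_mul, mul_comm (c : ℕ)]
  refine ⟨?_, hξ1, hξ2, fun g s => ⟨?_, ?_⟩⟩
  · rw [h.card, ← hf, ← pow_mul]
    congr 1
    omega
  · rw [hev', hξ1]
  · rw [hev', hξ2]

end Pool.Agent.Q26.GR
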